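import Pool.Agent.helper27.TD.Spec2

/-!
# Project TD, row VQ: valuations
-/

set_option autoImplicit false

namespace Pool.Agent.helper27.TD

/-- splitting off a power of a prime -/
lemma VQ_split {q : ℕ} (hq : q.Prime) {x : ℤ} (hx : x ≠ 0) :
    ∃ (b : ℕ) (x' : ℤ), x = (q : ℤ) ^ b * x' ∧ ¬ (q : ℤ) ∣ x' := by
  have h : FiniteMultiplicity (q : ℤ) x := by
    rw [Int.finiteMultiplicity_iff]
    exact ⟨by simpa using hq.ne_one, hx⟩
  obtain ⟨c, hc1, hc2⟩ := h.exists_eq_pow_mul_and_not_dvd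
  exact ⟨_, c, hc1, hc2⟩

lemma VQ_one {q l : ℕ} (hq : q.Prime) (hl : Odd l) {L L' D k u v : ℤ} (hL : L = (q : ℤ) ^ l * L')
    (hL' : ¬ (q : ℤ) ∣ L') (hv : v ≠ 0) (h1 : u ^ 2 - L * v ^ 2 = D * k ^ 2) (a : ℕ)
    (ha : (q : ℤ) ^ a ∣ k) : (q : ℤ) ^ a ∣ u := by
  have hqZ : Prime (q : ℤ) := Nat.prime_iff_prime_int.1 hq
  by_contra hcon
  have hu : u ≠ 0 := fun h => hcon (h ▸ dvd_zero _)
  obtain ⟨b, u', hu1, hu2⟩ := VQ_split hq hu
  obtain ⟨c, v', hv1, hv2⟩ := VQ_split hq hv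
  obtain ⟨k', hk⟩ := ha
  have hba : b < a := by
    by_contra hge
    apply hcon
    rw [hu1]
    exact (pow_dvd_pow _ (not_lt.1 hge)).mul_right _
  obtain ⟨d, rfl⟩ := Nat.exists_eq_add_of_lt hba
  rcases Nat.lt_trichotomy (l + 2 * c) (2 * b) with h | h | h
  · obtain ⟨e, he⟩ := Nat.exists_eq_add_of_lt h
    have h2 : (q : ℤ) ^ (l + 2 * c) * (L' * v' ^ 2) = (q : ℤ) ^ (l + 2 * c) *
        ((q : ℤ) ^ (e + 1) * (u' ^ 2 - D * ((q : ℤ) ^ (2 * (d + 1)) * k' ^ 2))) := by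
      have e1 : (q : ℤ) ^ (l + 2 * c) * (q : ℤ) ^ (e + 1) = (q : ℤ) ^ (2 * b) := by
        rw [← pow_add]
        congr 1
        omega
      rw [← mul_assoc ((q : ℤ) ^ (l + 2 * c)) ((q : ℤ) ^ (e + 1)), e1]
      rw [hu1, hv1, hk, hL] at h1
      have e2 : (q : ℤ) ^ (l + 2 * c) = (q : ℤ) ^ l * ((q : ℤ) ^ c) ^ 2 := by
        rw [pow_add, ← pow_mul, mul_comm 2 c]
      have e3 : (q : ℤ) ^ (2 * b) = ((q : ℤ) ^ b) ^ 2 := by rw [← pow_mul, mul_comm]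
      have e4 : (q : ℤ) ^ (2 * (d + 1)) = ((q : ℤ) ^ (d + 1)) ^ 2 := by rw [← pow_mul, mul_comm]
      have e5 : (q : ℤ) ^ (b + d + 1) = (q : ℤ) ^ b * (q : ℤ) ^ (d + 1) := by
        rw [← pow_add]; rfl
      rw [e2, e3, e4]
      rw [e5] at h1
      linear_combination (-1 : ℤ) * h1
    have h3 := mul_left_cancel₀ (pow_ne_zero _ hqZ.ne_zero) h2
    have h4 : (q : ℤ) ∣ L' * v' ^ 2 := by
      rw [h3]
      exact (dvd_pow_self _ (Nat.succ_ne_zero e)).mul_right _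
    rcases hqZ.dvd_or_dvd h4 with h5 | h5
    · exact hL' h5
    · exact hv2 (hqZ.dvd_of_dvd_pow h5)
  · obtain ⟨m, hm⟩ := hl
    omega
  · obtain ⟨e, he⟩ := Nat.exists_eq_add_of_lt h
    have h2 : (q : ℤ) ^ (2 * b) * u' ^ 2 = (q : ℤ) ^ (2 * b) *
        ((q : ℤ) * ((q : ℤ) ^ e * (L' * v' ^ 2) + (q : ℤ) ^ (2 * d + 1) * (D * k' ^ 2))) := by
      rw [hu1, hv1, hk, hL] at h1
      have e2 : (q : ℤ) ^ (2 * b) * ((q : ℤ) * (q : ℤ) ^ e) = (q : ℤ) ^ l * ((q : ℤ) ^ c) ^ 2 := by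
        rw [← pow_succ', ← pow_add, ← pow_mul, ← pow_add]
        congr 1
        omega
      have e3 : (q : ℤ) ^ (2 * b) = ((q : ℤ) ^ b) ^ 2 := by rw [← pow_mul, mul_comm]
      have e4 : (q : ℤ) ^ (2 * b) * ((q : ℤ) * (q : ℤ) ^ (2 * d + 1)) =
          ((q : ℤ) ^ (b + d + 1)) ^ 2 := by
        rw [← pow_succ', ← pow_add, ← pow_mul]
        congr 1
        omega
      have h3 : ((q : ℤ) ^ b) ^ 2 * u' ^ 2 = (q : ℤ) ^ l * ((q : ℤ) ^ c) ^ 2 * (L' * v' ^ 2) +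
          ((q : ℤ) ^ (b + d + 1)) ^ 2 * (D * k' ^ 2) := by
        linear_combination h1
      rw [← e3, ← e2, ← e4] at h3
      rw [h3]
      ring
    have h3 := mul_left_cancel₀ (pow_ne_zero _ hqZ.ne_zero) h2
    have h4 : (q : ℤ) ∣ u' ^ 2 := by
      rw [h3]
      exact Dvd.intro _ rfl
    exact hu2 (hqZ.dvd_of_dvd_pow h4)

theorem VQ : VQ_stmt := by
  intro q l L L' J D k w P hq hq3 hl hL hL' hD hw hk hv h1 h2 h3
  have hqZ : Prime (q : ℤ) := Nat.prime_iff_prime_int.1 hq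
  have hone := fun a => VQ_one hq hl hL hL' hv h1 a
  refine ⟨hone, fun hqk => ?_⟩
  by_contra hqv
  obtain ⟨a, k', hk1, hk2⟩ := VQ_split hq hk
  obtain ⟨u', hu⟩ := hone a ⟨k', hk1⟩
  have ha : 1 ≤ a := by
    by_contra h
    have h0 : a = 0 := by omega
    rw [h0, pow_zero, one_mul] at hk1
    exact hk2 (hk1 ▸ hqk)
  have hpow : ∀ n : ℕ, (q : ℤ) ^ n ≠ 0 := fun n => pow_ne_zero _ hqZ.ne_zero
  -- the first equation
  have hla : 2 * a ≤ l := by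
    by_contra hlt
    obtain ⟨e, he⟩ := Nat.exists_eq_add_of_lt (not_le.1 hlt)
    have e1 : (q : ℤ) ^ l * (q : ℤ) ^ (e + 1) = ((q : ℤ) ^ a) ^ 2 := by
      rw [← pow_add, ← pow_mul]
      congr 1
      omega
    have h4 : (q : ℤ) ^ l * (L' * P 3 ^ 2) = (q : ℤ) ^ l *
        ((q : ℤ) ^ (e + 1) * (u' ^ 2 - D * k' ^ 2)) := by
      rw [← mul_assoc ((q : ℤ) ^ l) ((q : ℤ) ^ (e + 1)), e1]
      rw [hu, hk1, hL] at h1
      linear_combination (-1 : ℤ) * h1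
    have h5 := mul_left_cancel₀ (hpow l) h4
    have h6 : (q : ℤ) ∣ L' * P 3 ^ 2 := by
      rw [h5]
      exact (dvd_pow_self _ (Nat.succ_ne_zero e)).mul_right _
    rcases hqZ.dvd_or_dvd h6 with h7 | h7
    · exact hL' h7
    · exact hqv (hqZ.dvd_of_dvd_pow h7)
  have hla1 : a + 1 ≤ l := by omega
  obtain ⟨e, he⟩ := Nat.exists_eq_add_of_le hla1
  have e1 : (q : ℤ) ^ l = (q : ℤ) ^ a * ((q : ℤ) * (q : ℤ) ^ e) := by
    rw [he, ← pow_succ', ← pow_add]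
    congr 1
    omega
  -- the second equation
  have h4 : P 0 ^ 2 = (q : ℤ) ^ a * ((q : ℤ) * ((q : ℤ) ^ e * (L' * P 1 ^ 2)) - k' * w) := by
    rw [hL, e1, hk1] at h2
    linear_combination h2
  have hqg : (q : ℤ) ∣ P 0 := by
    apply hqZ.dvd_of_dvd_pow (n := 2)
    rw [h4]
    exact (dvd_pow_self _ (by omega)).mul_right _
  -- the third equation
  obtain ⟨g', hg⟩ := hqg
  have h5 : (q : ℤ) ^ a * (P 3 * (k' * w)) = (q : ℤ) ^ a * ((q : ℤ) *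
      (2 * ((q : ℤ) ^ e * (L' * P 1 ^ 2)) * P 3 - 2 * u' * g' * P 1 -
        2 * J * ((q : ℤ) ^ (a - 1) * k' ^ 2))) := by
    have e2 : (q : ℤ) * (q : ℤ) ^ (a - 1) = (q : ℤ) ^ a := by
      rw [← pow_succ']
      congr 1
      omega
    rw [h4, hu, hL, e1] at h3
    rw [hg] at h3
    have h6 : (2 : ℤ) * J * k ^ 2 = (q : ℤ) ^ a * ((q : ℤ) * (2 * J * ((q : ℤ) ^ (a - 1) * k' ^ 2))) := by
      rw [hk1]
      rw [show (q : ℤ) * (2 * J * ((q : ℤ) ^ (a - 1) * k' ^ 2)) =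
        2 * J * (((q : ℤ) * (q : ℤ) ^ (a - 1)) * k' ^ 2) by ring, e2]
      ring
    rw [h6] at h3
    linear_combination (-1 : ℤ) * h3
  have h6 := mul_left_cancel₀ (hpow a) h5
  have h7 : (q : ℤ) ∣ P 3 * (k' * w) := by
    rw [h6]
    exact Dvd.intro _ rfl
  rcases hqZ.dvd_or_dvd h7 with h8 | h8
  · exact hqv h8
  · rcases hqZ.dvd_or_dvd h8 with h9 | h9
    · exact hk2 h9
    · exact hw h9

end Pool.Agent.helper27.TD
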